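import Mathlib

/-!
# Separable metrizable spaces of dimension at most `n` are intersections of `n + 1`
zero-dimensional separable metrizable extensions
-/

open Filter Topology TopologicalSpace Set

namespace Pool.Agent.Results.MP_085bfa_gt.StructuralNumber

universe u

/-- Covering dimension at most `n`: every finite open cover has a finite open refinement such that
every point lies in at most `n + 1` of its members. -/
def CovDimLE (X : Type u) [TopologicalSpace X] (n : ℕ) : Prop :=
  ∀ (ι : Type) (_ : Finite ι) (U : ι → Set X), (∀ i, IsOpen (U i)) → (⋃ i, U i) = univ →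
    ∃ (κ : Type) (_ : Finite κ) (V : κ → Set X), (∀ j, IsOpen (V j)) ∧ (⋃ j, V j) = univ ∧
      (∀ j, ∃ i, V j ⊆ U i) ∧ ∀ x, {j | x ∈ V j}.ncard ≤ n + 1

/-- The topology is separable and metrizable and has a base of clopen sets. -/
def IsSM0 {X : Type u} (t : TopologicalSpace X) : Prop :=
  @SeparableSpace X t ∧ @MetrizableSpace X t ∧ @IsTopologicalBasis X t {s | @IsClopen X t s}

/-! ## General position -/

section Perturb

variable {X : Type u} [TopologicalSpace X] [NormalSpace X] {n : ℕ}

theorem span_ne_top {I : Type} [Fintype I] (hI : Fintype.card I = n + 1) {κ : Type}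
    (v : κ → I → ℝ) (J : Finset κ) (hJ : J.card ≤ n + 1) :
    affineSpan ℝ (v '' (J : Set κ)) ≠ ⊤ := by
  classical
  intro h
  have hdir : vectorSpan ℝ (v '' (J : Set κ)) = ⊤ := by
    rw [← direction_affineSpan, h, AffineSubspace.direction_top]
  have hfr : Module.finrank ℝ (vectorSpan ℝ (v '' (J : Set κ))) = n + 1 := by
    rw [hdir, finrank_top, Module.finrank_fintype_fun_eq_card, hI]
  rcases Nat.eq_zero_or_pos J.card with h0 | h0
  · rw [Finset.card_eq_zero] at h0
    subst h0
    rw [Finset.coe_empty, image_empty, vectorSpan_empty, finrank_bot] at hfr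
    omega
  · obtain ⟨m, hm⟩ : ∃ m, J.card = m + 1 := ⟨J.card - 1, by omega⟩
    have := finrank_vectorSpan_image_finset_le ℝ v J hm
    rw [Finset.coe_image] at this
    omega

theorem perturb (hX : CovDimLE X n) {I : Type} [Fintype I] (hI : Fintype.card I = n + 1)
    (F : X → I → ℝ) (hF : Continuous F) (R : ℝ) (hR : ∀ x, ‖F x‖ ≤ R) (p : I → ℝ) {ε : ℝ}
    (hε : 0 < ε) :
    ∃ G : X → I → ℝ, Continuous G ∧ (∀ x, ‖G x - F x‖ ≤ ε) ∧
      ∃ δ > 0, ∀ x, ∃ i, δ ≤ |G x i - p i| := by
  classical
  obtain ⟨t, -, htf, htc⟩ := (isCompact_closedBall (0 : I → ℝ) R).finite_cover_balls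
    (show 0 < ε / 4 by positivity)
  obtain ⟨κ, hκ, V, hVo, hVc, hVU, hVn⟩ := hX t htf.to_subtype
    (fun z => F ⁻¹' Metric.ball (z : I → ℝ) (ε / 4))
    (fun z => Metric.isOpen_ball.preimage hF) (by
      refine eq_univ_of_forall fun x => ?_
      have h1 : F x ∈ Metric.closedBall (0 : I → ℝ) R := by
        rw [mem_closedBall_zero_iff]; exact hR x
      obtain ⟨z, hz, hxz⟩ := mem_iUnion₂.1 (htc h1)
      exact mem_iUnion.2 ⟨⟨z, hz⟩, hxz⟩)
  have : Fintype κ := Fintype.ofFinite κ
  obtain ⟨f, hf⟩ := PartitionOfUnity.exists_isSubordinate_of_locallyFinite isClosed_univ V hVo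
    (locallyFinite_of_finite V) (by rw [hVc])
  have hfV : ∀ j x, f j x ≠ 0 → x ∈ V j := fun j x h =>
    hf j (subset_tsupport _ h)
  have hsum : ∀ x, ∑ j, f j x = 1 := by
    intro x
    have := f.sum_eq_one (mem_univ x)
    rwa [finsum_eq_sum_of_fintype] at this
  let v : κ → I → ℝ := fun j => if h : (V j).Nonempty then F h.some else 0
  have hv : ∀ j x, x ∈ V j → ‖v j - F x‖ ≤ ε / 2 := by
    intro j x hx
    have hne : (V j).Nonempty := ⟨x, hx⟩
    simp only [v, hne, dif_pos]
    obtain ⟨z, hz⟩ := hVU j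
    have h1 : F hne.some ∈ Metric.ball (z : I → ℝ) (ε / 4) := hz hne.some_mem
    have h2 : F x ∈ Metric.ball (z : I → ℝ) (ε / 4) := hz hx
    rw [Metric.mem_ball] at h1 h2
    rw [← dist_eq_norm]
    have := dist_triangle_right (F hne.some) (F x) (z : I → ℝ)
    linarith
  let G₀ : X → I → ℝ := fun x => ∑ j, f j x • v j
  have hG₀c : Continuous G₀ :=
    continuous_finsetSum _ fun j _ => (f j).continuous.smul continuous_const
  have hG₀b : ∀ x, ‖G₀ x - F x‖ ≤ ε / 2 := by
    intro x
    have h1 : G₀ x - F x = ∑ j, f j x • (v j - F x) := by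
      simp only [smul_sub, Finset.sum_sub_distrib, ← Finset.sum_smul, hsum, one_smul, G₀]
    rw [h1]
    calc ‖∑ j, f j x • (v j - F x)‖ ≤ ∑ j, ‖f j x • (v j - F x)‖ := norm_sum_le _ _
      _ ≤ ∑ j, f j x * (ε / 2) := by
          apply Finset.sum_le_sum
          intro j _
          rw [norm_smul, Real.norm_eq_abs, abs_of_nonneg (f.nonneg j x)]
          by_cases h : f j x = 0
          · rw [h, zero_mul, zero_mul]
          · exact mul_le_mul_of_nonneg_left (hv j x (hfV j x h)) (f.nonneg j x)
      _ = ε / 2 := by rw [← Finset.sum_mul, hsum, one_mul]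
  -- the union of the affine subspaces
  let S : Set (I → ℝ) := ⋃ J : {J : Finset κ // J.card ≤ n + 1},
    (affineSpan ℝ (v '' (J.1 : Set κ)) : Set (I → ℝ))
  have hG₀S : ∀ x, G₀ x ∈ S := by
    intro x
    let J : Finset κ := Finset.univ.filter fun j => x ∈ V j
    have hJ : J.card ≤ n + 1 := by
      have := hVn x
      rwa [ncard_eq_toFinset_card', toFinset_ofPred] at this
    refine mem_iUnion.2 ⟨⟨J, hJ⟩, ?_⟩
    have h1 : G₀ x = ∑ j ∈ J, f j x • v j := by
      symm
      apply Finset.sum_subset (Finset.subset_univ J)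
      intro j _ hj
      have : f j x = 0 := by
        by_contra h
        exact hj (Finset.mem_filter.2 ⟨Finset.mem_univ j, hfV j x h⟩)
      rw [this, zero_smul]
    have h2 : ∑ j ∈ J, f j x = 1 := by
      rw [← hsum x]
      apply Finset.sum_subset (Finset.subset_univ J)
      intro j _ hj
      by_contra h
      exact hj (Finset.mem_filter.2 ⟨Finset.mem_univ j, hfV j x h⟩)
    apply convexHull_subset_affineSpan
    rw [h1]
    apply (convex_convexHull ℝ _).sum_mem (fun j _ => f.nonneg j x) h2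
    intro j hj
    exact subset_convexHull _ _ ⟨j, hj, rfl⟩
  have hSc : IsClosed S := by
    apply isClosed_iUnion_of_finite
    intro J
    exact AffineSubspace.closed_of_finiteDimensional _
  have hS0 : MeasureTheory.volume S = 0 := by
    rw [MeasureTheory.measure_iUnion_null_iff]
    intro J
    exact MeasureTheory.Measure.addHaar_affineSubspace _ _ (span_ne_top hI v J.1 J.2)
  obtain ⟨q, hqp, hqS⟩ : ∃ q ∈ Metric.ball p (ε / 2), q ∉ S := by
    by_contra h
    push Not at h
    have h1 : Metric.ball p (ε / 2) ⊆ interior S := interior_maximal h Metric.isOpen_ball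
    rw [MeasureTheory.Measure.interior_eq_empty_of_null hS0] at h1
    exact h1 (Metric.mem_ball_self (by positivity))
  obtain ⟨δ, hδ, hδS⟩ := Metric.isOpen_iff.1 hSc.isOpen_compl q hqS
  refine ⟨fun x => G₀ x + (p - q), hG₀c.add continuous_const, ?_, δ, hδ, ?_⟩
  · intro x
    have h1 : G₀ x + (p - q) - F x = (G₀ x - F x) + (p - q) := by abel
    rw [h1]
    refine (norm_add_le _ _).trans ?_
    have h2 : ‖p - q‖ < ε / 2 := by
      rw [← dist_eq_norm, dist_comm]; exact hqp
    linarith [hG₀b x]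
  · intro x
    by_contra hcon
    push Not at hcon
    have h1 : G₀ x ∈ Metric.ball q δ := by
      rw [Metric.mem_ball, dist_eq_norm, pi_norm_lt_iff hδ]
      intro i
      have := hcon i
      simp only [Pi.add_apply, Pi.sub_apply] at this
      rw [Real.norm_eq_abs, Pi.sub_apply]
      have h2 : G₀ x i - q i = G₀ x i + (p i - q i) - p i := by ring
      rw [h2]
      exact this
    exact hδS h1 (hG₀S x)

open BoundedContinuousFunction in
theorem general_position (hX : CovDimLE X n) {M : Type u} [Countable M] [TopologicalSpace M]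
    [DiscreteTopology M] (h : M → X → ℝ) (hc : ∀ m, Continuous (h m))
    (hb : ∀ m x, h m x ∈ Icc (0 : ℝ) 1) :
    ∃ f : M → X → ℝ, (∀ m, Continuous (f m)) ∧ (∀ m x, |f m x - h m x| < 1 / 4) ∧
      ∀ I : Finset M, I.card = n + 1 → ∀ x, ∃ m ∈ I, f m x ≠ 1 / 2 := by
  classical
  let S : {I : Finset M // I.card = n + 1} → Set ((M × X) →ᵇ ℝ) := fun I =>
    {f | ∃ δ > 0, ∀ x, ∃ m ∈ I.1, δ ≤ |f (m, x) - 1 / 2|}
  have hSo : ∀ I, IsOpen (S I) := by
    intro I
    rw [Metric.isOpen_iff]
    rintro f ⟨δ, hδ, hf⟩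
    refine ⟨δ / 2, by positivity, ?_⟩
    intro g hg
    refine ⟨δ / 2, by positivity, fun x => ?_⟩
    obtain ⟨m, hm, hmx⟩ := hf x
    refine ⟨m, hm, ?_⟩
    have h1 : dist (g (m, x)) (f (m, x)) ≤ dist g f := dist_coe_le_dist _
    rw [Metric.mem_ball] at hg
    rw [Real.dist_eq] at h1
    have h2 := abs_sub_abs_le_abs_sub (f (m, x) - 1 / 2) (g (m, x) - 1 / 2)
    have h3 : |f (m, x) - 1 / 2 - (g (m, x) - 1 / 2)| = |g (m, x) - f (m, x)| := by
      rw [abs_sub_comm]; congr 1; ring
    rw [h3] at h2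
    linarith
  have hSd : ∀ I, Dense (S I) := by
    intro I
    rw [Metric.dense_iff]
    intro f r hr
    let e : Fin (n + 1) ≃ I.1 := (I.1.equivFinOfCardEq I.2).symm
    obtain ⟨G, hGc, hGF, δ, hδ, hGδ⟩ := perturb hX (I := Fin (n + 1)) (Fintype.card_fin _)
      (fun x i => f ((e i : M), x))
      (continuous_pi fun i => f.continuous.comp (continuous_const.prodMk continuous_id)) ‖f‖
      (fun x => (pi_norm_le_iff_of_nonneg (norm_nonneg _)).2 fun i => f.norm_coe_le_norm _)
      (fun _ => 1 / 2) (show 0 < r / 2 by positivity)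
    let g : M × X → ℝ := fun q => if hq : q.1 ∈ I.1 then G q.2 (e.symm ⟨q.1, hq⟩) else f q
    have hgc : Continuous g := by
      rw [continuous_prod_of_discrete_left]
      intro m
      by_cases hm : m ∈ I.1
      · simp only [g, hm, dif_pos]
        exact (continuous_apply _).comp hGc
      · simp only [g, hm, dif_neg, not_false_eq_true]
        exact f.continuous.comp (continuous_const.prodMk continuous_id)
    have hgf : ∀ q, |g q - f q| ≤ r / 2 := by
      rintro ⟨m, x⟩
      by_cases hm : m ∈ I.1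
      · simp only [g, hm, dif_pos]
        have h1 := (pi_norm_le_iff_of_nonneg (by positivity)).1 (hGF x) (e.symm ⟨m, hm⟩)
        simpa using h1
      · simp only [g, hm, dif_neg, not_false_eq_true, sub_self, abs_zero]
        positivity
    have hgb : ∀ q, ‖g q‖ ≤ ‖f‖ + r / 2 := by
      intro q
      have h1 := hgf q
      have h2 := f.norm_coe_le_norm q
      rw [Real.norm_eq_abs] at *
      have h3 := abs_sub_abs_le_abs_sub (g q) (f q)
      linarith
    refine ⟨BoundedContinuousFunction.ofNormedAddCommGroup g hgc _ hgb, ?_, δ, hδ, ?_⟩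
    · rw [Metric.mem_ball]
      refine lt_of_le_of_lt ((dist_le (by positivity)).2 ?_) (half_lt_self hr)
      intro q
      rw [Real.dist_eq]
      exact hgf q
    · intro x
      obtain ⟨i, hi⟩ := hGδ x
      refine ⟨e i, (e i).2, ?_⟩
      change δ ≤ |g ((e i : M), x) - 1 / 2|
      have h1 : g ((e i : M), x) = G x i := by
        simp [g]
      rw [h1]
      exact hi
  have hD : Dense (⋂ I, S I) := dense_iInter_of_isOpen hSo hSd
  let h₀ : (M × X) →ᵇ ℝ := BoundedContinuousFunction.ofNormedAddCommGroup (fun q => h q.1 q.2)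
    (continuous_prod_of_discrete_left.2 fun m => hc m) 1 (by
      intro q
      rw [Real.norm_eq_abs, abs_le]
      exact ⟨by linarith [(hb q.1 q.2).1], (hb q.1 q.2).2⟩)
  obtain ⟨f, hfD, hfb⟩ := hD.exists_dist_lt h₀ (show (0 : ℝ) < 1 / 4 by norm_num)
  refine ⟨fun m x => f (m, x), fun m => f.continuous.comp (continuous_const.prodMk continuous_id),
    ?_, ?_⟩
  · intro m x
    have h1 : dist (h₀ (m, x)) (f (m, x)) ≤ dist h₀ f := dist_coe_le_dist _
    rw [Real.dist_eq, abs_sub_comm] at h1
    exact lt_of_le_of_lt h1 hfb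
  · intro I hI x
    obtain ⟨δ, hδ, hx⟩ := mem_iInter.1 hfD ⟨I, hI⟩
    obtain ⟨m, hm, hmx⟩ := hx x
    refine ⟨m, hm, ?_⟩
    intro h'
    have h'' : f (m, x) = 1 / 2 := h'
    rw [h'', sub_self, abs_zero] at hmx
    linarith

end Perturb

/-! ## The topologies -/

/-- Every separable metrizable topology of dimension at most `n` is the intersection of `n + 1`
zero-dimensional separable metrizable extensions. -/
theorem result (n : ℕ) (X : Type u) [t : TopologicalSpace X] [SeparableSpace X] [MetrizableSpace X]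
    (hX : CovDimLE X n) :
    ∃ τ : Fin (n + 1) → TopologicalSpace X, (∀ j, IsSM0 (τ j)) ∧
      (∀ j, ∀ U, IsOpen U → @IsOpen X (τ j) U) ∧
      ∀ U, IsOpen U ↔ ∀ j, @IsOpen X (τ j) U := by
  classical
  let _ := metrizableSpaceMetric X
  have : SecondCountableTopology X := UniformSpace.secondCountable_of_separable X
  -- pairs of basic sets
  let B := countableBasis X
  have hB : IsTopologicalBasis B := isBasis_countableBasis X
  let P : Type u := {p : B × B // closure (p.1 : Set X) ⊆ p.2}
  have : Countable B := (countable_countableBasis X).to_subtype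
  have : Countable P := Subtype.countable
  let M : Type u := P × Fin (n + 1)
  let _ : TopologicalSpace M := ⊥
  have : DiscreteTopology M := ⟨rfl⟩
  have hU : ∀ m : M, ∃ f : C(X, ℝ), EqOn f 0 (closure (m.1.1.1 : Set X)) ∧
      EqOn f 1 (m.1.1.2 : Set X)ᶜ ∧ ∀ x, f x ∈ Icc (0 : ℝ) 1 := by
    intro m
    apply exists_continuous_zero_one_of_isClosed isClosed_closure
    · exact (hB.isOpen m.1.1.2.2).isClosed_compl
    · rw [disjoint_compl_right_iff_subset]
      exact m.1.2
  choose h hh0 hh1 hh2 using hU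
  obtain ⟨f, hfc, hfh, hfI⟩ := general_position hX (fun m => (h m : X → ℝ))
    (fun m => (h m).continuous) hh2
  let V : M → Set X := fun m => {x | f m x < 1 / 2}
  have hV1 : ∀ m, closure (m.1.1.1 : Set X) ⊆ V m := by
    intro m x hx
    have h1 := hfh m x
    have h2 : h m x = 0 := hh0 m hx
    rw [h2, sub_zero, abs_lt] at h1
    change f m x < 1 / 2
    linarith [h1.2]
  have hV2 : ∀ m, V m ⊆ (m.1.1.2 : Set X) := by
    intro m x hx
    by_contra hne
    have h1 := hfh m x
    have h2 : h m x = 1 := hh1 m hne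
    rw [h2, abs_lt] at h1
    have h3 : f m x < 1 / 2 := hx
    linarith [h1.1]
  let S : Fin (n + 1) → Set (Set X) := fun j =>
    range (fun p : P => V (p, j)) ∪ range (fun p : P => (V (p, j))ᶜ)
  have hSc : ∀ j, (S j).Countable := fun j => (countable_range _).union (countable_range _)
  let τ : Fin (n + 1) → TopologicalSpace X := fun j => generateFrom (S j)
  have hclopen : ∀ j, ∀ s ∈ S j, @IsClopen X (τ j) s := by
    rintro j s (⟨p, rfl⟩ | ⟨p, rfl⟩)
    · refine ⟨?_, isOpen_generateFrom_of_mem (Or.inl ⟨p, rfl⟩)⟩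
      rw [← @isOpen_compl_iff]
      exact isOpen_generateFrom_of_mem (Or.inr ⟨p, rfl⟩)
    · refine ⟨?_, isOpen_generateFrom_of_mem (Or.inr ⟨p, rfl⟩)⟩
      rw [← @isOpen_compl_iff, compl_compl]
      exact isOpen_generateFrom_of_mem (Or.inl ⟨p, rfl⟩)
  -- the original topology is coarser
  have hfine : ∀ j, ∀ U, IsOpen U → @IsOpen X (τ j) U := by
    intro j U hUo
    rw [@isOpen_iff_mem_nhds]
    intro x hx
    obtain ⟨G', hG', hxG', hG'U⟩ := hB.exists_subset_of_mem_open hx hUo
    obtain ⟨C, hC, hCcl, hCG'⟩ := exists_mem_nhds_isClosed_subset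
      ((hB.isOpen hG').mem_nhds hxG')
    obtain ⟨G, hG, hxG, hGC⟩ := hB.mem_nhds_iff.1 hC
    have hcl : closure G ⊆ G' := (closure_minimal hGC hCcl).trans hCG'
    let p : P := ⟨(⟨G, hG⟩, ⟨G', hG'⟩), hcl⟩
    have h1 : @IsOpen X (τ j) (V (p, j)) := isOpen_generateFrom_of_mem (Or.inl ⟨p, rfl⟩)
    have h2 : x ∈ V (p, j) := hV1 (p, j) (subset_closure hxG)
    exact Filter.mem_of_superset (@IsOpen.mem_nhds X (τ j) x _ h1 h2)
      ((hV2 (p, j)).trans hG'U)
  have hbasis : ∀ j, @IsTopologicalBasis X (τ j) {s | @IsClopen X (τ j) s} := by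
    intro j
    let _ := τ j
    apply isTopologicalBasis_of_isOpen_of_nhds
    · intro s hs
      exact hs.2
    · intro x U hx hUo
      have hb := isTopologicalBasis_of_subbasis (s := S j) (rfl : τ j = generateFrom (S j))
      obtain ⟨W, ⟨F, ⟨hF, hFS⟩, rfl⟩, hxW, hWU⟩ := hb.exists_subset_of_mem_open hx hUo
      refine ⟨⋂₀ F, ?_, hxW, hWU⟩
      rw [sInter_eq_biInter]
      exact Finite.isClopen_biInter hF fun s hs => hclopen j s (hFS hs)
  refine ⟨τ, ?_, hfine, ?_⟩
  · intro j
    let _ := τ j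
    have : SecondCountableTopology X := ⟨⟨S j, hSc j, rfl⟩⟩
    have : T1Space X := by
      refine ⟨fun x => ?_⟩
      rw [← isOpen_compl_iff]
      exact hfine j _ (@isOpen_compl_singleton X t _ x)
    have : RegularSpace X := by
      apply RegularSpace.of_exists_mem_nhds_isClosed_subset
      intro x s hs
      obtain ⟨W, hW, hxW, hWs⟩ := (hbasis j).mem_nhds_iff.1 hs
      exact ⟨W, hW.2.mem_nhds hxW, hW.1, hWs⟩
    have : T3Space X := ⟨⟩
    exact ⟨inferInstance, metrizableSpace_of_t3_secondCountable X, hbasis j⟩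
  · intro U
    refine ⟨fun hUo j => hfine j U hUo, fun hUo => ?_⟩
    rw [isOpen_iff_mem_nhds]
    intro x hx
    obtain ⟨j, hj⟩ : ∃ j : Fin (n + 1), ∀ p : P, f (p, j) x ≠ 1 / 2 := by
      by_contra hcon
      push Not at hcon
      choose p hp using hcon
      have hinj : Function.Injective (fun j : Fin (n + 1) => ((p j, j) : M)) :=
        fun a b hab => (Prod.mk.inj hab).2
      obtain ⟨m, hm, hmx⟩ := hfI (Finset.univ.image fun j : Fin (n + 1) => ((p j, j) : M))
        (by rw [Finset.card_image_of_injective _ hinj, Finset.card_univ, Fintype.card_fin]) x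
      obtain ⟨j, -, rfl⟩ := Finset.mem_image.1 hm
      exact hmx (hp j)
    have h1 : U ∈ @nhds X (τ j) x := @IsOpen.mem_nhds X (τ j) x U (hUo j) hx
    have h2 : 𝓝 x ≤ @nhds X (τ j) x := by
      rw [nhds_generateFrom]
      refine le_iInf₂ fun s hs => ?_
      rw [le_principal_iff]
      obtain ⟨hxs, hs⟩ := hs
      rcases hs with ⟨p, rfl⟩ | ⟨p, rfl⟩
      · exact (isOpen_lt (hfc (p, j)) continuous_const).mem_nhds hxs
      · have h3 : 1 / 2 < f (p, j) x := by
          refine lt_of_le_of_ne (not_lt.1 hxs) (Ne.symm (hj p))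
        refine Filter.mem_of_superset
          ((isOpen_lt continuous_const (hfc (p, j))).mem_nhds h3) ?_
        intro y hy
        have hy' : 1 / 2 < f (p, j) y := hy
        exact not_lt.2 hy'.le
    exact h2 h1

end Pool.Agent.Results.MP_085bfa_gt.StructuralNumber
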